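import Pool.Agent.H283R3.Ann1

open MeasureTheory Set Filter Topology
open scoped ENNReal

namespace Pool.Agent.Results.MP_88aa81_an.PuncturedBall

open Pool.Agent.H283R3.Newt Pool.Agent.H283R3.Ann

/-- `M(x)`: the mean of `y ↦ ‖x - y‖ ^ (2 - n)` over the unit sphere of `ℝⁿ` with respect to
surface measure (normalised: this is an average). -/
noncomputable def sphMean (n : ℕ) (x : EuclideanSpace ℝ (Fin n)) : ℝ :=
  ⨍ y : Metric.sphere (0 : EuclideanSpace ℝ (Fin n)) 1, ‖x - (y : EuclideanSpace ℝ (Fin n))‖ ^ (2 - (n:ℝ))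
    ∂((volume : Measure (EuclideanSpace ℝ (Fin n))).toSphere)

/-- the mean-value property of a measurable set `E` with `0 < λ(E) < ∞` -/
def HasMVP (n : ℕ) (E : Set (EuclideanSpace ℝ (Fin n))) : Prop :=
  MeasurableSet E ∧ 0 < volume E ∧ volume E < ⊤ ∧
    ∀ x, x ∉ E → (volume.real E)⁻¹ * (∫ y in E, ‖x - y‖ ^ (2 - (n:ℝ))) = sphMean n x

lemma sphMean_three {x : E3} (hx : ‖x‖ ≠ 1) :
    sphMean 3 x = if ‖x‖ < 1 then 1 else ‖x‖⁻¹ := by
  have h1 : sphMean 3 x = (4 * Real.pi)⁻¹ * gS x 1 := by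
    unfold sphMean gS
    rw [average_eq, Measure.toSphere_real_apply_univ, finrank_E3, smul_eq_mul]
    have hv : (volume : Measure E3).real (Metric.ball 0 1) = 4 * Real.pi / 3 := by
      rw [measureReal_def, vol_ball one_pos, ENNReal.toReal_ofReal (vb_pos one_pos).le, vb]
      ring
    rw [hv]
    congr 1
    · congr 1
      push_cast
      ring
    · congr 1
      ext v
      rw [one_smul, show (2 - ((3:ℕ):ℝ)) = -1 by norm_num, Real.rpow_neg_one]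
  rw [h1, gS_val hx]
  have := Real.pi_pos
  split_ifs with h
  · field_simp
  · field_simp

/-- the ball of radius `R ∈ (1, 3/2)` minus a closed subset of the sphere
`‖x‖² = 3R² - 2R³` has the mean-value property -/
theorem mvp_family {R : ℝ} (h1 : 1 < R) {F : Set E3} (hF : IsClosed F)
    (hFs : ∀ x ∈ F, ‖x‖ ^ 2 = 3 * R ^ 2 - 2 * R ^ 3) : HasMVP 3 (Metric.ball (0:E3) R \ F) := by
  have hR : 0 < R := by linarith
  have hpi := Real.pi_pos
  have hF0 : volume F = 0 := by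
    have hsub : F ⊆ Metric.sphere (0:E3) (Real.sqrt (3 * R ^ 2 - 2 * R ^ 3)) := by
      intro x hx
      rw [mem_sphere_zero_iff_norm, ← hFs x hx, Real.sqrt_sq (norm_nonneg x)]
    exact measure_mono_null hsub (Measure.addHaar_sphere _ _ _)
  have hae : (Metric.ball (0:E3) R \ F : Set E3) =ᵐ[volume] Metric.ball (0:E3) R :=
    sdiff_null_ae_eq_self hF0
  have hvol : volume (Metric.ball (0:E3) R \ F) = ENNReal.ofReal (vb R) := by
    rw [measure_congr hae, vol_ball hR]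
  refine ⟨Metric.isOpen_ball.measurableSet.diff hF.measurableSet, ?_, ?_, ?_⟩
  · rw [hvol]; exact ENNReal.ofReal_pos.2 (vb_pos hR)
  · rw [hvol]; exact ENNReal.ofReal_lt_top
  · intro x hx
    rw [measureReal_def, hvol, ENNReal.toReal_ofReal (vb_pos hR).le, setIntegral_congr_set hae]
    have hI : ∫ y in Metric.ball (0:E3) R, ‖x - y‖ ^ (2 - ((3:ℕ):ℝ)) = Nn R ‖x‖ := by
      rw [show (2 - ((3:ℕ):ℝ)) = -1 by norm_num]
      simp_rw [Real.rpow_neg_one, ← dist_eq_norm]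
      rw [ball_pot hR, dist_zero_right]
    rw [hI]
    by_cases hxF : x ∈ F
    · have h2 := hFs x hxF
      have h3 : ‖x‖ < 1 := by
        have : ‖x‖ ^ 2 < 1 ^ 2 := by nlinarith [mul_pos (sub_pos.2 h1) (sub_pos.2 h1)]
        exact lt_of_pow_lt_pow_left₀ 2 zero_le_one this
      rw [sphMean_three h3.ne, if_pos h3, Nn, if_pos (h3.trans h1), h2, vb]
      field_simp
      ring
    · have h3 : R ≤ ‖x‖ := by
        by_contra hc
        push Not at hc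
        exact hx ⟨by rwa [mem_ball_zero_iff], hxF⟩
      have h4 : 1 < ‖x‖ := by linarith
      rw [sphMean_three h4.ne', if_neg (not_lt.2 h4.le), Nn, if_neg (not_lt.2 h3), vb]
      field_simp

lemma not_annulus {R : ℝ} (h1 : 1 < R) (h2 : R < 3 / 2) {F : Set E3} (hne : F.Nonempty)
    (hFs : ∀ x ∈ F, ‖x‖ ^ 2 = 3 * R ^ 2 - 2 * R ^ 3) :
    ¬ ∃ r₁ r₂ : ℝ, r₁ < r₂ ∧ Metric.ball (0 : E3) R \ F = {x | r₁ < ‖x‖ ∧ ‖x‖ < r₂} := by
  rintro ⟨r₁, r₂, -, h⟩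
  obtain ⟨p, hp⟩ := hne
  have hc0 : 0 < 3 * R ^ 2 - 2 * R ^ 3 := by
    have : 3 * R ^ 2 - 2 * R ^ 3 = R ^ 2 * (3 - 2 * R) := by ring
    rw [this]
    apply mul_pos (by positivity) (by linarith)
  have hc1 : 3 * R ^ 2 - 2 * R ^ 3 < 1 := by
    nlinarith [mul_pos (sub_pos.2 h1) (sub_pos.2 h1)]
  have hz : (0:E3) ∈ Metric.ball (0 : E3) R \ F := by
    refine ⟨Metric.mem_ball_self (by linarith), fun h0 => ?_⟩
    have := hFs 0 h0
    rw [norm_zero] at this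
    linarith [this, (by norm_num : (0:ℝ) ^ 2 = 0)]
  have hq : (EuclideanSpace.single (0:Fin 3) (1:ℝ) : E3) ∈ Metric.ball (0 : E3) R \ F := by
    have hn : ‖(EuclideanSpace.single (0:Fin 3) (1:ℝ) : E3)‖ = 1 := by simp
    refine ⟨by rw [mem_ball_zero_iff, hn]; exact h1, fun h0 => ?_⟩
    have := hFs _ h0
    rw [hn] at this
    linarith [this, (by norm_num : (1:ℝ) ^ 2 = 1)]
  rw [h] at hz hq
  have hpn : ‖p‖ < 1 := by
    have h3 := hFs p hp
    have : ‖p‖ ^ 2 < 1 ^ 2 := by linarith [(by norm_num : (1:ℝ) ^ 2 = 1)]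
    exact lt_of_pow_lt_pow_left₀ 2 zero_le_one this
  have hz1 : r₁ < ‖(0:E3)‖ := hz.1
  rw [norm_zero] at hz1
  have hq2 : ‖(EuclideanSpace.single (0:Fin 3) (1:ℝ) : E3)‖ < r₂ := hq.2
  have hn : ‖(EuclideanSpace.single (0:Fin 3) (1:ℝ) : E3)‖ = 1 := by simp
  rw [hn] at hq2
  have hpm : p ∈ Metric.ball (0 : E3) R \ F := by
    rw [h]
    exact ⟨lt_of_lt_of_le hz1 (norm_nonneg p), hpn.trans hq2⟩
  exact hpm.2 hp

/-- There is a non-empty open set in `ℝ³`, of finite volume, with the mean-value property that is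
not an annulus; more precisely all balls of radius `R ∈ (1, 3/2)` minus a non-empty closed part of
the sphere `‖x‖² = 3R² - 2R³` are such sets. -/
theorem result :
    (∀ R : ℝ, 1 < R → R < 3 / 2 → ∀ F : Set (EuclideanSpace ℝ (Fin 3)), IsClosed F → F.Nonempty →
      (∀ x ∈ F, ‖x‖ ^ 2 = 3 * R ^ 2 - 2 * R ^ 3) →
      IsOpen (Metric.ball (0 : EuclideanSpace ℝ (Fin 3)) R \ F) ∧
      HasMVP 3 (Metric.ball (0 : EuclideanSpace ℝ (Fin 3)) R \ F) ∧
      ¬ ∃ r₁ r₂ : ℝ, r₁ < r₂ ∧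
        Metric.ball (0 : EuclideanSpace ℝ (Fin 3)) R \ F = {x | r₁ < ‖x‖ ∧ ‖x‖ < r₂}) ∧
    ∃ Ω : Set (EuclideanSpace ℝ (Fin 3)), IsOpen Ω ∧ Ω.Nonempty ∧ volume Ω < ⊤ ∧
      HasMVP 3 Ω ∧ ¬ ∃ r₁ r₂ : ℝ, r₁ < r₂ ∧ Ω = {x | r₁ < ‖x‖ ∧ ‖x‖ < r₂} := by
  have main : ∀ R : ℝ, 1 < R → R < 3 / 2 → ∀ F : Set (EuclideanSpace ℝ (Fin 3)), IsClosed F →
      F.Nonempty → (∀ x ∈ F, ‖x‖ ^ 2 = 3 * R ^ 2 - 2 * R ^ 3) →
      IsOpen (Metric.ball (0 : EuclideanSpace ℝ (Fin 3)) R \ F) ∧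
      HasMVP 3 (Metric.ball (0 : EuclideanSpace ℝ (Fin 3)) R \ F) ∧
      ¬ ∃ r₁ r₂ : ℝ, r₁ < r₂ ∧
        Metric.ball (0 : EuclideanSpace ℝ (Fin 3)) R \ F = {x | r₁ < ‖x‖ ∧ ‖x‖ < r₂} := by
    intro R h1 h2 F hF hne hFs
    exact ⟨Metric.isOpen_ball.sdiff hF, mvp_family h1 hF hFs, not_annulus h1 h2 hne hFs⟩
  refine ⟨main, ?_⟩
  set p : E3 := EuclideanSpace.single (0:Fin 3) (Real.sqrt (25 / 32)) with hp
  have hpn : ‖p‖ ^ 2 = 25 / 32 := by
    rw [hp, show ‖(EuclideanSpace.single (0:Fin 3) (Real.sqrt (25 / 32)) : E3)‖ = ‖Real.sqrt (25 / 32)‖ by simp, Real.norm_of_nonneg (Real.sqrt_nonneg _),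
      Real.sq_sqrt (by norm_num)]
  obtain ⟨h1, h2, h3⟩ := main (5 / 4) (by norm_num) (by norm_num) {p} isClosed_singleton
    (singleton_nonempty p) (by
      intro x hx
      rw [mem_singleton_iff.1 hx, hpn]
      norm_num)
  refine ⟨_, h1, ?_, h2.2.2.1, h2, h3⟩
  by_contra hc
  rw [not_nonempty_iff_eq_empty] at hc
  have := h2.2.1
  rw [hc] at this
  simp at this

end Pool.Agent.Results.MP_88aa81_an.PuncturedBall
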